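import Pool.Agent.Helper63.Sey3.Goals
import Pool.Agent.Helper41.Girth4.Prob

/-!
# Packet SEY3-COREA: the choice of the constants
-/

namespace Pool.Agent.Helper7.Sey3

open Pool.Agent.Helper41.Girth4
open Pool.Agent.Helper63.Sey3

theorem expb (A m : ℝ) (hA : 0 < A) (hm : 0 < m) :
    ∃ M : ℕ, ∀ D : ℕ, M ≤ D → ((D : ℝ) + 1) * Real.exp (-(m * D)) ≤ A := by
  refine ⟨⌈4 / (A * m ^ 2)⌉₊ + 1, fun D hD => ?_⟩
  have h0 : (⌈4 / (A * m ^ 2)⌉₊ : ℝ) ≤ D := by exact_mod_cast (by omega : _ ≤ D)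
  have h1 : 4 / (A * m ^ 2) ≤ D := (Nat.le_ceil _).trans h0
  have hD1 : (1 : ℝ) ≤ D := by exact_mod_cast (by omega : 1 ≤ D)
  have h2 := Real.quadratic_le_exp_of_nonneg (x := m * D) (by positivity)
  have h3 : 4 ≤ D * (A * m ^ 2) := by rwa [div_le_iff₀ (by positivity)] at h1
  have h4 : (D : ℝ) + 1 ≤ A * Real.exp (m * D) := by
    have h5 : A * ((m * D) ^ 2 / 2) ≤ A * Real.exp (m * D) := by
      apply mul_le_mul_of_nonneg_left _ hA.le
      have : 0 ≤ m * (D : ℝ) := by positivity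
      linarith
    have h6 : A * ((m * D) ^ 2 / 2) = (D * (A * m ^ 2)) * D / 2 := by ring
    have h7 : 4 * (D : ℝ) ≤ (D * (A * m ^ 2)) * D :=
      mul_le_mul_of_nonneg_right h3 (by linarith)
    linarith
  rw [Real.exp_neg, ← div_eq_mul_inv, div_le_iff₀ (Real.exp_pos _)]
  exact h4

theorem exists_mul_le (a b : ℝ) (ha : 0 < a) : ∃ M : ℕ, ∀ D : ℕ, M ≤ D → b ≤ a * D := by
  refine ⟨⌈b / a⌉₊, fun D hD => ?_⟩
  have h0 : (⌈b / a⌉₊ : ℝ) ≤ D := by exact_mod_cast hD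
  have h1 : b / a ≤ D := (Nat.le_ceil _).trans h0
  rw [div_le_iff₀ ha] at h1
  linarith

/-- the lower bound for the probability of the two events of class membership -/
theorem two_bound (ε' θ D q J L x : ℝ) (hε0 : 0 < ε') (hε1 : ε' ≤ 1) (hθ : θ ≤ ε' / 8)
    (hJ : 0 < J) (hD : 0 < D) (hL : 0 < L) (hJL : J / L ≤ ε' / 8) (hq : q = D + J)
    (hJD : 16 * J ≤ ε' * D) (hx : ε' / (q * J) ≤ x) :
    (1 + ε' / 4) / (D * J) ≤ (1 - θ) / (q * J) - 1 / (q * L) + x := by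
  have hq0 : 0 < q := by rw [hq]; linarith
  have h1 : 1 / (q * L) = (J / L) / (q * J) := by
    field_simp
  have h2 : (J / L) / (q * J) ≤ (ε' / 8) / (q * J) := by gcongr
  have h3 : (1 - ε' / 8) / (q * J) ≤ (1 - θ) / (q * J) := by gcongr
  have h4 : (1 + ε' / 4) / (D * J) ≤ (1 + 3 * ε' / 4) / (q * J) := by
    rw [div_le_div_iff₀ (by positivity) (by positivity)]
    have h5 : (1 + ε' / 4) * q ≤ (1 + 3 * ε' / 4) * D := by
      have h6 : q ≤ (1 + ε' / 16) * D := by rw [hq]; linarith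
      have h7 : (1 + ε' / 4) * q ≤ (1 + ε' / 4) * ((1 + ε' / 16) * D) :=
        mul_le_mul_of_nonneg_left h6 (by linarith)
      have h8 : ε' * ε' * D ≤ ε' * D := by
        have : ε' * ε' ≤ ε' * 1 := mul_le_mul_of_nonneg_left hε1 hε0.le
        have := mul_le_mul_of_nonneg_right this hD.le
        linarith
      have h9 : 0 ≤ ε' * D := by positivity
      nlinarith
    calc (1 + ε' / 4) * (q * J) = ((1 + ε' / 4) * q) * J := by ring
      _ ≤ ((1 + 3 * ε' / 4) * D) * J := mul_le_mul_of_nonneg_right h5 hJ.le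
      _ = (1 + 3 * ε' / 4) * (D * J) := by ring
  have h5 : (1 + 3 * ε' / 4) / (q * J) = (1 - ε' / 8) / (q * J) - (ε' / 8) / (q * J) +
      ε' / (q * J) := by
    rw [← sub_div, ← add_div]
    congr 1
    ring
  rw [h1]
  linarith

theorem goalCOREA : GoalGP → GoalCOLP → GoalSM → GoalREC → GoalTM → GoalIN → GoalV1 → GoalV2 →
    GoalCOREA := by
  classical
  intro hGP hCOLP hSM hREC hTM hIN hV1 hV2 δ hδ0 hδ1
  obtain ⟨c0, D0, hc0, hGP⟩ := hGP δ hδ0 hδ1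
  obtain ⟨c, hc, hcone, hcc⟩ : ∃ c : ℝ, 0 < c ∧ c ≤ 1 ∧ c ≤ c0 :=
    ⟨min c0 1, by positivity, min_le_right _ _, min_le_left _ _⟩
  obtain ⟨c3', D3, hc3', hTM⟩ := hTM (c / 2) (by positivity)
  obtain ⟨c3, hc3, hc31, hc33⟩ : ∃ c3 : ℝ, 0 < c3 ∧ c3 ≤ 1 ∧ c3 ≤ c3' :=
    ⟨min c3' 1, by positivity, min_le_right _ _, min_le_left _ _⟩
  obtain ⟨c1', D1, hc1', hV1⟩ := hV1 (c / 2) (by positivity)
  obtain ⟨c1, hc1, hc11, hc111⟩ : ∃ c1 : ℝ, 0 < c1 ∧ c1 ≤ 1 ∧ c1 ≤ c1' :=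
    ⟨min c1' 1, by positivity, min_le_right _ _, min_le_left _ _⟩
  obtain ⟨ε, hε0, hε8, hεc⟩ : ∃ ε : ℝ, 0 < ε ∧ ε ≤ 1 / 8 ∧ ε ≤ c * c1 / 400 :=
    ⟨min (1 / 8) (c * c1 / 400), by positivity, min_le_left _ _, min_le_right _ _⟩
  obtain ⟨ε', hε'⟩ : ∃ ε' : ℝ, ε' = (ε / 4) * (c3 / 2) * Real.exp (-36) := ⟨_, rfl⟩
  have hε'0 : 0 < ε' := by rw [hε']; positivity
  have hε'1 : ε' ≤ 1 := by
    have h1 : Real.exp (-36) ≤ 1 := Real.exp_le_one_iff.2 (by norm_num)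
    have h2 : (ε / 4) * (c3 / 2) ≤ 1 * 1 := mul_le_mul (by linarith) (by linarith)
      (by positivity) (by norm_num)
    have h3 := mul_le_mul h2 h1 (Real.exp_pos _).le (by norm_num)
    rw [hε']
    linarith
  obtain ⟨J, hJ⟩ : ∃ J : ℕ, 16 ≤ ε' / 4 * J := by
    obtain ⟨M, hM⟩ := exists_mul_le (ε' / 4) 16 (by positivity)
    exact ⟨M, hM M le_rfl⟩
  have hJ0 : (0 : ℝ) < J := by
    by_contra h
    have h1 : (J : ℝ) ≤ 0 := not_lt.1 h
    have h2 : ε' / 4 * J ≤ 0 := mul_nonpos_of_nonneg_of_nonpos (by positivity) h1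
    linarith
  obtain ⟨L, hL1, hL⟩ : ∃ L : ℕ, 1 ≤ L ∧ (J : ℝ) / L ≤ ε' / 8 := by
    obtain ⟨M, hM⟩ := exists_mul_le (ε' / 8) J (by positivity)
    refine ⟨M + 1, by omega, ?_⟩
    rw [div_le_iff₀ (by positivity)]
    exact hM (M + 1) (by omega)
  obtain ⟨θ, hθ0, hθ1, hθ3⟩ : ∃ θ : ℝ, 0 < θ ∧ θ ≤ ε' / 8 ∧ θ ≤ c3 / 4 :=
    ⟨min (ε' / 8) (c3 / 4), by positivity, min_le_left _ _, min_le_right _ _⟩
  obtain ⟨Z, hZ1, hZa, hZb⟩ : ∃ Z : ℕ, 1 ≤ Z ∧ 8 / ((Z : ℝ) * c) ≤ θ / 2 ∧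
      4 / (Z : ℝ) ≤ c * c1 / 400 := by
    obtain ⟨M, hM⟩ := exists_mul_le (θ / 2 * c) 8 (by positivity)
    obtain ⟨M', hM'⟩ := exists_mul_le (c * c1 / 400) 4 (by positivity)
    refine ⟨M + M' + 1, by omega, ?_, ?_⟩
    · rw [div_le_iff₀ (by positivity)]
      have := hM (M + M' + 1) (by omega)
      linarith
    · rw [div_le_iff₀ (by positivity)]
      exact hM' (M + M' + 1) (by omega)
  have hZ0 : (0 : ℝ) < Z := by exact_mod_cast (by omega : 0 < Z)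
  obtain ⟨m, hm0, hmc, hmZ, hm1⟩ : ∃ m : ℝ, 0 < m ∧ m ≤ c ∧ m ≤ 2 / Z ∧ m ≤ c1 / 16 :=
    ⟨min c (min (2 / Z) (c1 / 16)), by positivity, min_le_left _ _,
      (min_le_right _ _).trans (min_le_left _ _), (min_le_right _ _).trans (min_le_right _ _)⟩
  obtain ⟨Ma, hMa⟩ := expb (Real.exp (-9) / 6) c (by positivity) hc
  obtain ⟨Mb, hMb⟩ := expb (θ / 4) c (by positivity) hc
  obtain ⟨Mc, hMc⟩ := expb (θ / 4) (2 / Z) (by positivity) (by positivity)
  obtain ⟨Md, hMd⟩ := expb (1 / 3) (m / 2) (by positivity) (by positivity)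
  obtain ⟨M1, hM1⟩ := exists_mul_le c 2 hc
  obtain ⟨M2, hM2⟩ := exists_mul_le ε 2 hε0
  obtain ⟨M3, hM3⟩ := exists_mul_le c3 12 hc3
  obtain ⟨M4, hM4⟩ := exists_mul_le ε' (16 * J) hε'0
  obtain ⟨M5, hM5⟩ := exists_mul_le c1 4 hc1
  refine ⟨ε' / 4, m / 2, ε, J, L, Z, D0 + D3 + D1 + Ma + Mb + Mc + Md + M1 + M2 + M3 + M4 + M5,
    by positivity, by linarith, by positivity, hε0, hε8, hJ, hL1, hZ1, ?_⟩
  intro V _ P hM hPJ hPL hPZ hPq hPqm hsp
  have hD1 : (1 : ℝ) ≤ P.D := by exact_mod_cast P.hD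
  have hD : (0 : ℝ) < P.D := by linarith
  have eD0 : D0 ≤ P.D := by omega
  have eD3 : D3 ≤ P.D := by omega
  have eD1 : D1 ≤ P.D := by omega
  have ea := hMa P.D (by omega)
  have eb := hMb P.D (by omega)
  have ec := hMc P.D (by omega)
  have ed := hMd P.D (by omega)
  have e1 := hM1 P.D (by omega)
  have e2 := hM2 P.D (by omega)
  have e3 := hM3 P.D (by omega)
  have e4 := hM4 P.D (by omega)
  have e5 := hM5 P.D (by omega)
  have hPZr : (P.Z : ℝ) = Z := by rw [hPZ]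
  have hPJr : (P.J : ℝ) = J := by rw [hPJ]
  have hPLr : (P.L : ℝ) = L := by rw [hPL]
  have hqr : (P.q : ℝ) = P.D + J := by rw [hPq]; push_cast; rfl
  have hq0 : (0 : ℝ) < P.q := by rw [hqr]; linarith
  have hq2 : (P.q : ℝ) ≤ 2 * P.D := by exact_mod_cast P.hq2
  -- the number of the other colours
  have hfl : ((⌊ε * P.D⌋₊ : ℕ) : ℝ) ≤ ε * P.D := Nat.floor_le (by positivity)
  have hfl2 : ε * P.D < (⌊ε * P.D⌋₊ : ℕ) + 1 := Nat.lt_floor_add_one _
  have hflq : ⌊ε * P.D⌋₊ ≤ P.q := by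
    have h1 : ((⌊ε * P.D⌋₊ : ℕ) : ℝ) ≤ P.q := by
      rw [hqr]
      have : ε * P.D ≤ 1 * P.D := mul_le_mul_of_nonneg_right (by linarith) hD.le
      linarith
    exact_mod_cast h1
  have hqm : (P.q : ℝ) - P.qm = (⌊ε * P.D⌋₊ : ℕ) := by
    rw [hPqm, Nat.cast_sub hflq]
    ring
  have hqm1 : (P.q : ℝ) - P.qm ≤ ε * P.D := by rw [hqm]; exact hfl
  have hqm2 : ε / 2 * P.D ≤ (P.q : ℝ) - P.qm := by rw [hqm]; linarith
  -- kappa
  obtain ⟨κ, hκ⟩ : ∃ κ : ℕ, κ = ⌊c * P.D⌋₊ := ⟨_, rfl⟩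
  have hκ1 : (κ : ℝ) ≤ c * P.D := by rw [hκ]; exact Nat.floor_le (by positivity)
  have hκ2' : c * P.D < (κ : ℝ) + 1 := by rw [hκ]; exact Nat.lt_floor_add_one _
  have hκ2 : c / 2 * P.D ≤ (κ : ℝ) := by linarith
  have hκ3 : 1 ≤ κ := by
    have : (0 : ℝ) < κ := by linarith
    exact_mod_cast this
  have hκ0 : (0 : ℝ) < κ := by exact_mod_cast (by omega : 0 < κ)
  have hGd : ∀ u, Pr (fun ω : P.Om => ¬ P.Gd κ ω u) ≤ Real.exp (-(c * P.D)) := by
    intro u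
    have h1 := hGP V P κ eD0 (hκ1.trans (mul_le_mul_of_nonneg_right hcc hD.le)) u (hsp u)
    refine h1.trans (Real.exp_le_exp.2 ?_)
    have := mul_le_mul_of_nonneg_right hcc hD.le
    linarith
  have hsm : ∀ u, Pr (fun ω : P.Om => 4 * (P.D : ℝ) / P.Z < P.sm ω u) ≤
      Real.exp (-(2 / Z * P.D)) := by
    intro u
    have h1 := hSM V P u
    refine h1.trans (le_of_eq ?_)
    rw [hPZr]
    congr 1
    ring
  have hexc : Real.exp (-(c * P.D)) ≤ θ / 4 := by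
    refine le_trans ?_ eb
    exact le_mul_of_one_le_left (Real.exp_pos _).le (by linarith only [hD])
  have hexZ : Real.exp (-(2 / Z * P.D)) ≤ θ / 4 := by
    refine le_trans ?_ ec
    exact le_mul_of_one_le_left (Real.exp_pos _).le (by linarith only [hD])
  have hcol : ∀ v, Pr (fun ω : P.Om => P.col ω v = none) ≤ θ := by
    intro v
    have h1 := hCOLP V P κ hκ3 v
    have h2 : (4 * (P.D : ℝ) / P.Z) / κ ≤ θ / 2 := by
      refine le_trans ?_ hZa
      rw [hPZr]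
      have h3 : (4 * (P.D : ℝ) / Z) / κ ≤ (4 * (P.D : ℝ) / Z) / (c / 2 * P.D) := by gcongr
      refine h3.trans (le_of_eq ?_)
      field_simp
      ring
    have h3 := hGd v
    have h4 := hsm v
    linarith
  have hθlt : θ < 1 := by linarith
  obtain ⟨R, hR⟩ := hREC V P θ hθ0.le hθlt hcol
  have hTm : ∀ w : V, ∀ a < P.qm, c3 ≤ Pr (fun ω : P.Om => P.Tm ω w (P.cl (P.part w) a)) := by
    intro w a ha
    refine hc33.trans (hTM V P κ (Real.exp (-(c * P.D))) eD3 hκ2 (Real.exp_pos _).le ?_ hGd w a ha)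
    have h8 := Real.exp_pos (-(c * P.D))
    have h9 : 3 * (P.D : ℝ) * Real.exp (-(c * P.D)) ≤
        3 * (((P.D : ℝ) + 1) * Real.exp (-(c * P.D))) := by linarith only [h8]
    linarith only [h9, ea]
  have hIns : ∀ w : V, ∀ a < P.qm, ∀ j < P.J, ε' / ((P.q : ℝ) * J) ≤
      Pr (fun ω : P.Om => P.Ins ω w a j) := by
    intro w a ha j hj
    have h3q : 3 / (P.q : ℝ) ≤ c3 / 4 := by
      rw [div_le_iff₀ hq0, hqr]
      have : 0 < c3 / 4 * J := by positivity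
      have h : c3 / 4 * (P.D + J) = c3 * P.D / 4 + c3 / 4 * J := by ring
      linarith
    have h1 := hIN V P θ c3 hcol hTm (by linarith) hc3.le w a ha j hj
    refine le_trans ?_ h1
    rw [hPJr]
    have h2 : ε / 4 ≤ ((P.q : ℝ) - P.qm) / P.q := by
      rw [le_div_iff₀ hq0]
      have : ε / 4 * P.q ≤ ε / 4 * (2 * P.D) := mul_le_mul_of_nonneg_left hq2 (by positivity)
      linarith
    rw [hε']
    gcongr
  refine ⟨R, ?_, ?_⟩
  · -- bad vertices
    intro w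
    have hdw : (P.dg w : ℝ) ≤ P.D := by exact_mod_cast P.dg_le w
    let S : Finset V := Finset.univ.filter fun u => P.Own w u
    have hS : (S.card : ℝ) ≤ P.D := by
      have : S.card = P.dg w := by
        unfold Sy.dg
        rw [Nat.card_eq_fintype_card, Fintype.card_subtype]
      rw [this]
      exact hdw
    have hb1 : Pr (fun ω : P.Om => ∃ u ∈ S, ¬ P.Gd κ ω u) ≤ P.D * Real.exp (-(c * P.D)) := by
      refine (Pr_exists_le S fun u (ω : P.Om) => ¬ P.Gd κ ω u).trans ?_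
      refine (Finset.sum_le_sum fun u _ => hGd u).trans ?_
      rw [Finset.sum_const, nsmul_eq_mul]
      exact mul_le_mul_of_nonneg_right hS (Real.exp_pos _).le
    have hb2 : Pr (fun ω : P.Om => ∃ u ∈ S, 4 * (P.D : ℝ) / P.Z < P.sm ω u) ≤
        P.D * Real.exp (-(2 / Z * P.D)) := by
      refine (Pr_exists_le S fun u (ω : P.Om) => 4 * (P.D : ℝ) / P.Z < P.sm ω u).trans ?_
      refine (Finset.sum_le_sum fun u _ => hsm u).trans ?_
      rw [Finset.sum_const, nsmul_eq_mul]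
      exact mul_le_mul_of_nonneg_right hS (Real.exp_pos _).le
    have hb3 := hV1 V P κ eD1 hκ2 w
    have hb4 := hV2 V P κ hκ3 w (c1 * P.D / 4)
    have hcov : ∀ ω : P.Om, ¬ (3 * Nat.card {u // P.Own w u ∧ P.Ms ω u} + 1 ≤
        Nat.card {a : ℕ // P.Fa ω w a}) →
        ((∃ u ∈ S, ¬ P.Gd κ ω u) ∨ (∃ u ∈ S, 4 * (P.D : ℝ) / P.Z < P.sm ω u)) ∨
        (((Nat.card {a : ℕ // P.Fa ω w a} : ℝ) < c1' * P.D ∧ ∀ u, P.Own w u → P.Gd κ ω u) ∨
          (c1 * P.D / 4 ≤ (Nat.card {u // P.Own w u ∧ P.Ms ω u} : ℝ) ∧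
            ∀ u, P.Own w u → P.Gd κ ω u ∧ (P.sm ω u : ℝ) ≤ 4 * (P.D : ℝ) / P.Z)) := by
      intro ω hω
      by_contra hcon
      push Not at hcon
      obtain ⟨⟨h1, h2⟩, h3, h4⟩ := hcon
      have h1' : ∀ u, P.Own w u → P.Gd κ ω u := fun u hu => h1 u (by simp [S, hu])
      have h2' : ∀ u, P.Own w u → (P.sm ω u : ℝ) ≤ 4 * (P.D : ℝ) / P.Z :=
        fun u hu => h2 u (by simp [S, hu])
      apply hω
      have h5 : c1' * P.D ≤ (Nat.card {a : ℕ // P.Fa ω w a} : ℝ) := by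
        by_contra hlt
        obtain ⟨u, hu, hu'⟩ := h3 (not_le.1 hlt)
        exact hu' (h1' u hu)
      have h6 : (Nat.card {u // P.Own w u ∧ P.Ms ω u} : ℝ) < c1 * P.D / 4 := by
        by_contra hle
        obtain ⟨u, hu, hu'⟩ := h4 (not_lt.1 hle)
        exact absurd (h2' u hu) (not_le.2 (hu' (h1' u hu)))
      have h7 : c1 * P.D ≤ c1' * P.D := mul_le_mul_of_nonneg_right hc111 hD.le
      have h8 : (3 * Nat.card {u // P.Own w u ∧ P.Ms ω u} + 1 : ℝ) ≤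
          (Nat.card {a : ℕ // P.Fa ω w a} : ℝ) := by linarith
      exact_mod_cast h8
    have htot := (Pr_mono hcov).trans ((Pr_or_le _ _).trans
      (add_le_add (Pr_or_le _ _) (Pr_or_le _ _)))
    refine htot.trans ?_
    -- exponents
    have hx1 : Real.exp (-(c * P.D)) ≤ Real.exp (-(m * P.D)) := by
      apply Real.exp_le_exp.2
      have := mul_le_mul_of_nonneg_right hmc hD.le
      linarith
    have hx2 : Real.exp (-(2 / Z * P.D)) ≤ Real.exp (-(m * P.D)) := by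
      apply Real.exp_le_exp.2
      have := mul_le_mul_of_nonneg_right hmZ hD.le
      linarith
    have hm1D := mul_le_mul_of_nonneg_right hm1 hD.le
    have hx3 : Real.exp (-(c1' * P.D)) ≤ Real.exp (-(m * P.D)) := by
      apply Real.exp_le_exp.2
      have h1 := mul_le_mul_of_nonneg_right hc111 hD.le
      have h2 : 0 < c1 * P.D := by positivity
      linarith
    have hεD : ε * P.D ≤ c * c1 / 400 * P.D := mul_le_mul_of_nonneg_right hεc hD.le
    have hcc1 : c * (c1 * P.D) ≤ 1 * (c1 * P.D) := mul_le_mul_of_nonneg_right hcone (by positivity)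
    have hc1D : 0 < c1 * P.D := by positivity
    have hx4 : Real.exp ((P.D : ℝ) * ((P.q : ℝ) - P.qm) / P.q - c1 * P.D / 4 / 2) ≤
        Real.exp (-(m * P.D)) := by
      apply Real.exp_le_exp.2
      have h1 : (P.D : ℝ) * ((P.q : ℝ) - P.qm) / P.q ≤ ε * P.D := by
        rw [div_le_iff₀ hq0]
        have h2 : (P.D : ℝ) * ((P.q : ℝ) - P.qm) ≤ P.D * (ε * P.D) :=
          mul_le_mul_of_nonneg_left hqm1 hD.le
        have h3 : ε * P.D * P.D ≤ ε * P.D * P.q := by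
          apply mul_le_mul_of_nonneg_left _ (by positivity)
          rw [hqr]
          linarith
        linarith
      linarith
    have hx5 : Real.exp (2 * (P.D : ℝ) * (((P.q : ℝ) - P.qm + 4 * (P.D : ℝ) / P.Z) / κ) -
        c1 * P.D / 4 / 2) ≤ Real.exp (-(m * P.D)) := by
      apply Real.exp_le_exp.2
      have h1 : ((P.q : ℝ) - P.qm + 4 * (P.D : ℝ) / P.Z) / κ ≤ c1 / 100 := by
        rw [div_le_iff₀ hκ0, hPZr]
        have h2 : 4 * (P.D : ℝ) / Z ≤ c * c1 / 400 * P.D := by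
          have := mul_le_mul_of_nonneg_right hZb hD.le
          calc 4 * (P.D : ℝ) / Z = 4 / Z * P.D := by ring
            _ ≤ _ := this
        have h3 : c1 / 100 * (c / 2 * P.D) ≤ c1 / 100 * κ :=
          mul_le_mul_of_nonneg_left hκ2 (by positivity)
        have h4 : c1 / 100 * (c / 2 * P.D) = c * c1 / 400 * P.D + c * c1 / 400 * P.D := by ring
        linarith
      have h2 := mul_le_mul_of_nonneg_left h1 (show (0 : ℝ) ≤ 2 * P.D by positivity)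
      linarith
    have hsum : P.D * Real.exp (-(c * P.D)) + P.D * Real.exp (-(2 / Z * P.D)) +
        (Real.exp (-(c1' * P.D)) +
        (Real.exp ((P.D : ℝ) * ((P.q : ℝ) - P.qm) / P.q - c1 * P.D / 4 / 2) +
        Real.exp (2 * (P.D : ℝ) * (((P.q : ℝ) - P.qm + 4 * (P.D : ℝ) / P.Z) / κ) -
          c1 * P.D / 4 / 2))) ≤ 3 * ((P.D : ℝ) + 1) * Real.exp (-(m * P.D)) := by
      have h1 := mul_le_mul_of_nonneg_left hx1 hD.le
      have h2 := mul_le_mul_of_nonneg_left hx2 hD.le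
      have h3 : 0 ≤ (P.D : ℝ) * Real.exp (-(m * P.D)) := by positivity
      linarith
    have hlast : 3 * ((P.D : ℝ) + 1) * Real.exp (-(m * P.D)) ≤ Real.exp (-(m / 2 * P.D)) := by
      have h1 : Real.exp (-(m * P.D)) = Real.exp (-(m / 2 * P.D)) * Real.exp (-(m / 2 * P.D)) := by
        rw [← Real.exp_add]
        congr 1
        ring
      rw [h1]
      have h2 := mul_le_mul_of_nonneg_right ed (Real.exp_pos (-(m / 2 * (P.D : ℝ)))).le
      linarith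
    refine le_trans ?_ (hsum.trans hlast)
    exact add_le_add (add_le_add hb1 hb2) (add_le_add hb3 hb4)
  · intro v a ha j hj
    have hdis : ∀ ω : P.Om, (P.T R ω j v ∧ P.isC ω v (P.cl (P.part v) a)) → ¬ P.Ins ω v a j :=
      fun ω h h' => P.isC_not_Ms h.2 h'.1
    rw [Pr_or hdis]
    have h1 := (hR j hj v a ha).1
    have h2 := hIns v a ha j hj
    rw [hPJr] at h1 ⊢
    rw [hPLr] at h1
    have h3 := two_bound ε' θ P.D P.q J L _ hε'0 hε'1 hθ1 hJ0 hD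
      (by exact_mod_cast (by omega : 0 < L)) hL hqr e4 h2
    linarith

end Pool.Agent.Helper7.Sey3
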